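import Mathlib
import Pool.Agent.SimplexCircle.Katona

set_option autoImplicit false

namespace Pool.Agent.Results.MP_32eaa8_co.OddDimension

/-- Let `d` be odd, `r ≥ 1`, `r (d + 1) ≤ d n` and `(d + 1) (n - r + 1) ≤ 2 n`. Then a family of
`r`-subsets of an `n`-set without a `d`-simplex has at most `C(n - 1, r - 1)` members. For `d = 3`
this is the whole range `4 r / 3 ≤ n ≤ 2 r - 2`. -/
theorem result :
    ∀ d r n : ℕ, Odd d → 1 ≤ r → r * (d + 1) ≤ d * n → (d + 1) * (n - r + 1) ≤ 2 * n →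
      ∀ F : Finset (Finset (Fin n)),
        (∀ A ∈ F, A.card = r) →
        (¬ ∃ S : Finset (Finset (Fin n)), S ⊆ F ∧ S.card = d + 1 ∧
            S.inf id = (∅ : Finset (Fin n)) ∧
            ∀ T : Finset (Finset (Fin n)), T ⊆ S → T.card = d → (T.inf id).Nonempty) →
        F.card ≤ (n - 1).choose (r - 1) := by
  intro d r n hd hr h1 h2 F hF hS
  obtain ⟨k, rfl⟩ := hd
  have hrn : r < n := by
    by_contra hcon
    push Not at hcon
    have h3 : (2 * k + 1) * n ≤ (2 * k + 1) * r := Nat.mul_le_mul_left _ hcon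
    have h4 : r * (2 * k + 1 + 1) = (2 * k + 1) * r + r := by ring
    omega
  obtain ⟨m, rfl⟩ := Nat.exists_eq_add_of_lt hrn
  have hm : r + m + 1 - r = m + 1 := by omega
  rw [hm] at h2
  apply SimplexCircle.main_bound (r + m + 1) r (k + 1) (by omega) hr (by omega) ?_ ?_ F hF
  · rintro ⟨S, hSF, hScard, hSinf, hSU⟩
    exact hS ⟨S, hSF, by omega, hSinf, fun T hTS hT => hSU T hTS (by omega)⟩
  · rw [hm]
    have h5 : (2 * k + 1 + 1) * (m + 1 + 1) = 2 * ((k + 1) * (m + 1 + 1)) := by ring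
    omega
  · rw [hm]
    have h6 : r * (2 * k + 1 + 1) = 2 * (k + 1) * r := by ring
    have h7 : (2 * k + 1) * (r + m + 1) + (r + m + 1)
        = 2 * (k + 1) * r + 2 * (k + 1) * (m + 1) := by ring
    omega

end Pool.Agent.Results.MP_32eaa8_co.OddDimension
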